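import Pool.Agent.H777R4.DM.Stmts

/-! Task COMP of project H777-DSH (helper217): weight components of elements of `dm`. -/

set_option autoImplicit false

namespace Pool.Agent.H217R3.DMC

open Pool.Agent.H777R4.DM MonoidAlgebra

attribute [local instance 100] LieRing.ofAssociativeRing

section gen

variable {M N : Type} [Monoid M] [Monoid N]

/-- the part of weight `w` -/
noncomputable def pr (ω : M → ℕ) (w : ℕ) : MonoidAlgebra ℚ M →ₗ[ℚ] MonoidAlgebra ℚ M where
  toFun a := MonoidAlgebra.ofCoeff (a.coeff.filter (fun m => ω m = w))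
  map_add' a b := by
    apply MonoidAlgebra.ext
    ext m
    simp only [coeff_ofCoeff, coeff_add, Finsupp.filter_apply, Finsupp.add_apply]
    split_ifs <;> simp
  map_smul' c a := by
    apply MonoidAlgebra.ext
    ext m
    simp only [coeff_ofCoeff, Finsupp.filter_apply, RingHom.id_apply]
    simp [Finsupp.filter_apply]

lemma coeff_pr (ω : M → ℕ) (w : ℕ) (a : MonoidAlgebra ℚ M) (m : M) :
    (pr ω w a).coeff m = if ω m = w then a.coeff m else 0 := by
  change (a.coeff.filter (fun m => ω m = w)) m = _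
  rw [Finsupp.filter_apply]

lemma pr_single (ω : M → ℕ) (w : ℕ) (m : M) (r : ℚ) :
    pr ω w (single m r) = if ω m = w then single m r else 0 := by
  classical
  apply MonoidAlgebra.ext
  ext n
  rw [coeff_pr]
  by_cases h : n = m
  · subst h; split_ifs <;> simp
  · have h1 : (single m r : MonoidAlgebra ℚ M).coeff n = 0 := by
      rw [coeff_single, Finsupp.single_apply, if_neg (Ne.symm h)]
    split_ifs <;> simp [h1, coeff_single, Finsupp.single_apply, Ne.symm h]

/-- homogeneous of weight `n` -/
def Hg (ω : M → ℕ) (n : ℕ) (a : MonoidAlgebra ℚ M) : Prop := ∀ m, a.coeff m ≠ 0 → ω m = n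

lemma Hg.zero (ω : M → ℕ) (n : ℕ) : Hg ω n 0 := by
  intro m h; simp at h

lemma Hg.add {ω : M → ℕ} {n : ℕ} {a b : MonoidAlgebra ℚ M} (ha : Hg ω n a) (hb : Hg ω n b) :
    Hg ω n (a + b) := by
  intro m h
  by_contra hcon
  have h1 : a.coeff m = 0 := by by_contra h1; exact hcon (ha m h1)
  have h2 : b.coeff m = 0 := by by_contra h2; exact hcon (hb m h2)
  apply h
  simp [h1, h2]

lemma Hg.sum {ι : Type} {ω : M → ℕ} {n : ℕ} (s : Finset ι) (f : ι → MonoidAlgebra ℚ M)
    (h : ∀ i ∈ s, Hg ω n (f i)) : Hg ω n (∑ i ∈ s, f i) := by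
  classical
  induction s using Finset.induction_on with
  | empty => simpa using Hg.zero ω n
  | insert a s ha ih =>
    rw [Finset.sum_insert ha]
    exact (h a (Finset.mem_insert_self _ _)).add
      (ih fun i hi => h i (Finset.mem_insert_of_mem hi))

lemma Hg.single (ω : M → ℕ) (m : M) (r : ℚ) : Hg ω (ω m) (single m r) := by
  classical
  intro n h
  rw [coeff_single, Finsupp.single_apply] at h
  by_cases h1 : m = n
  · rw [h1]
  · rw [if_neg h1] at h; exact absurd rfl h

lemma pr_of_Hg {ω : M → ℕ} {n : ℕ} {a : MonoidAlgebra ℚ M} (ha : Hg ω n a) (w : ℕ) :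
    pr ω w a = if n = w then a else 0 := by
  apply MonoidAlgebra.ext
  ext m
  rw [coeff_pr]
  by_cases h0 : a.coeff m = 0
  · split_ifs <;> simp [h0]
  · rw [ha m h0]
    split_ifs <;> simp

lemma pr_mul (ω : M → ℕ) (hω : ∀ a b, ω (a * b) = ω a + ω b) (w : ℕ) (a b : MonoidAlgebra ℚ M) :
    pr ω w (a * b) = ∑ ij ∈ Finset.HasAntidiagonal.antidiagonal w, pr ω ij.1 a * pr ω ij.2 b := by
  classical
  induction a using MonoidAlgebra.induction_linear with
  | zero => simp
  | add f g hf hg => rw [add_mul, map_add, hf, hg, ← Finset.sum_add_distrib]; simp [add_mul]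
  | single m r =>
    induction b using MonoidAlgebra.induction_linear with
    | zero => simp
    | add f g hf hg => rw [mul_add, map_add, hf, hg, ← Finset.sum_add_distrib]; simp [mul_add]
    | single n s =>
      rw [single_mul_single, pr_single, hω]
      simp only [pr_single]
      by_cases h : ω m + ω n = w
      · rw [if_pos h, Finset.sum_eq_single (ω m, ω n)]
        · simp [single_mul_single]
        · rintro ⟨i, j⟩ _ hne
          by_cases h1 : ω m = i
          · have h2 : ω n ≠ j := by
              rintro rfl; exact hne (by rw [h1])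
            simp [h2]
          · simp [h1]
        · intro hn
          exact absurd (Finset.HasAntidiagonal.mem_antidiagonal.2 h) hn
      · rw [if_neg h]
        symm
        apply Finset.sum_eq_zero
        rintro ⟨i, j⟩ hij
        rw [Finset.HasAntidiagonal.mem_antidiagonal] at hij
        by_cases h1 : ω m = i
        · have h2 : ω n ≠ j := by
            rintro rfl; subst h1; exact h hij
          simp [h2]
        · simp [h1]

lemma Hg.mul {ω : M → ℕ} (hω : ∀ a b, ω (a * b) = ω a + ω b) {n k : ℕ} {a b : MonoidAlgebra ℚ M}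
    (ha : Hg ω n a) (hb : Hg ω k b) : Hg ω (n + k) (a * b) := by
  intro m hm
  by_contra hcon
  have h1 : (pr ω (ω m) (a * b)).coeff m = (a * b).coeff m := by rw [coeff_pr, if_pos rfl]
  rw [pr_mul ω hω, Finset.sum_eq_zero] at h1
  · rw [← h1] at hm; simp at hm
  · rintro ⟨i, j⟩ hij
    rw [Finset.HasAntidiagonal.mem_antidiagonal] at hij
    simp only at hij
    rw [pr_of_Hg ha, pr_of_Hg hb]
    by_cases h2 : n = i
    · have h3 : k ≠ j := by rintro rfl; subst h2; exact hcon hij.symm
      simp [h3]
    · simp [h2]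

lemma pr_comm {ω : M → ℕ} {ω' : N → ℕ} (T : MonoidAlgebra ℚ M →ₗ[ℚ] MonoidAlgebra ℚ N)
    (hT : ∀ m, Hg ω' (ω m) (T (MonoidAlgebra.single m 1))) (w : ℕ) (a : MonoidAlgebra ℚ M) :
    T (pr ω w a) = pr ω' w (T a) := by
  induction a using MonoidAlgebra.induction_linear with
  | zero => simp
  | add f g hf hg => simp only [map_add, hf, hg]
  | single m r =>
    have h1 : (MonoidAlgebra.single m r : MonoidAlgebra ℚ M) =
        r • MonoidAlgebra.single m 1 := by simp
    rw [h1, map_smul, map_smul, map_smul, map_smul, pr_single, pr_of_Hg (hT m)]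
    split_ifs <;> simp

end gen

/-! ### the Lie algebra -/

/-- length -/
def ωA (m : FreeMonoid (Fin 2)) : ℕ := (FreeMonoid.toList m).length

lemma ωA_mul (a b : FreeMonoid (Fin 2)) : ωA (a * b) = ωA a + ωA b := by
  simp [ωA, FreeMonoid.toList_mul]

lemma lext_single {α V : Type} [AddCommGroup V] [Module ℚ V] (F : List α → V)
    (m : FreeMonoid α) (r : ℚ) :
    lext F (MonoidAlgebra.single m r) = r • F (FreeMonoid.toList m) := by
  unfold lext
  simp [MonoidAlgebra.coeffLinearEquiv]

lemma comp_eq (w : ℕ) (ψ : A) : comp w ψ = pr ωA w ψ := by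
  induction ψ using MonoidAlgebra.induction_linear with
  | zero => simp
  | add f g hf hg => simp only [map_add, hf, hg]
  | single m r =>
    unfold comp
    rw [lext_single, pr_single]
    by_cases h : (FreeMonoid.toList m).length = w
    · have h' : ωA m = w := h
      rw [if_pos h, if_pos h']
      simp [wd, MonoidAlgebra.of]
    · have h' : ¬ ωA m = w := h
      rw [if_neg h, if_neg h']
      simp

lemma co_comp (w : ℕ) (ψ : A) (l : List (Fin 2)) :
    co (comp w ψ) l = if l.length = w then co ψ l else 0 := by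
  rw [comp_eq]
  unfold co
  rw [coeff_pr]
  rfl

lemma comp_x (w : ℕ) (i : Fin 2) : comp w (x i) = if 1 = w then x i else 0 := by
  rw [comp_eq]
  have : (x i : A) = MonoidAlgebra.single (FreeMonoid.of i) 1 := by
    simp [x, wd, MonoidAlgebra.of]
  rw [this, pr_single]
  rfl

/-- the Lie subalgebra of the elements with all components in `LieX` -/
noncomputable def KL : LieSubalgebra ℚ A where
  carrier := {ψ | ∀ w, comp w ψ ∈ LieX}
  add_mem' := by
    intro a b ha hb w
    rw [map_add]
    exact LieX.add_mem (ha w) (hb w)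
  zero_mem' := by
    intro w
    rw [map_zero]
    exact LieX.zero_mem
  smul_mem' := by
    intro c a ha w
    rw [map_smul]
    exact LieX.smul_mem c (ha w)
  lie_mem' := by
    intro a b ha hb w
    have h1 : comp w ⁅a, b⁆ = ∑ ij ∈ Finset.HasAntidiagonal.antidiagonal w, ⁅comp ij.1 a, comp ij.2 b⁆ := by
      simp only [LieRing.of_associative_ring_bracket, map_sub, comp_eq, Finset.sum_sub_distrib]
      rw [pr_mul ωA ωA_mul, pr_mul ωA ωA_mul]
      congr 1
      refine Finset.sum_nbij' Prod.swap Prod.swap ?_ ?_ ?_ ?_ ?_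
      · rintro ⟨i, j⟩ h; simp only [Finset.HasAntidiagonal.mem_antidiagonal, Prod.swap] at h ⊢; omega
      · rintro ⟨i, j⟩ h; simp only [Finset.HasAntidiagonal.mem_antidiagonal, Prod.swap] at h ⊢; omega
      · rintro ⟨i, j⟩ _; rfl
      · rintro ⟨i, j⟩ _; rfl
      · rintro ⟨i, j⟩ _; rfl
    rw [h1]
    apply sum_mem
    intro ij _
    exact LieX.lie_mem (ha _) (hb _)

lemma LieX_le : LieX ≤ KL := by
  unfold LieX
  rw [LieSubalgebra.lieSpan_le]
  intro y hy w
  have hx : ∀ i, x i ∈ LieX := by
    intro i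
    unfold LieX
    apply LieSubalgebra.subset_lieSpan
    fin_cases i <;> simp
  rcases hy with rfl | hy
  · rw [comp_x]
    split_ifs
    · exact hx 0
    · exact LieX.zero_mem
  · rw [Set.mem_singleton_iff] at hy
    subst hy
    rw [comp_x]
    split_ifs
    · exact hx 1
    · exact LieX.zero_mem

/-! ### the stuffle part -/

/-- weight on `ℚ⟨Y⟩` -/
def ωY (m : FreeMonoid ℕ) : ℕ := vw 1 (FreeMonoid.toList m)

/-- weight on pairs -/
def ωP (m : FreeMonoid ℕ × FreeMonoid ℕ) : ℕ := ωY m.1 + ωY m.2

lemma ωY_mul (a b : FreeMonoid ℕ) : ωY (a * b) = ωY a + ωY b := by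
  simp [ωY, vw, FreeMonoid.toList_mul]

lemma ωY_one : ωY 1 = 0 := by
  simp [ωY, vw]

lemma ωP_mul (a b : FreeMonoid ℕ × FreeMonoid ℕ) : ωP (a * b) = ωP a + ωP b := by
  simp only [ωP, Prod.fst_mul, Prod.snd_mul, ωY_mul]; ring

lemma Hg_inl (m : FreeMonoid ℕ) : Hg ωP (ωY m) (inl (MonoidAlgebra.single m 1)) := by
  have h : inl (MonoidAlgebra.single m 1) = MonoidAlgebra.single (m, 1) (1 : ℚ) := by
    simp [inl]
  rw [h]
  have := Hg.single ωP (m, (1 : FreeMonoid ℕ)) (1 : ℚ)
  simpa [ωP, ωY_one] using this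

lemma Hg_inr (m : FreeMonoid ℕ) : Hg ωP (ωY m) (inr (MonoidAlgebra.single m 1)) := by
  have h : inr (MonoidAlgebra.single m 1) = MonoidAlgebra.single (1, m) (1 : ℚ) := by
    simp [inr]
  rw [h]
  have := Hg.single ωP ((1 : FreeMonoid ℕ), m) (1 : ℚ)
  simpa [ωP, ωY_one] using this

lemma wd_one (k : ℕ) : (wd [k] : AY) = MonoidAlgebra.single (FreeMonoid.of k) 1 := by
  simp [wd, MonoidAlgebra.of]

lemma ωY_of (k : ℕ) : ωY (FreeMonoid.of k) = k + 1 := by
  simp [ωY, vw]

lemma Hg_starL (k : ℕ) : Hg ωP (k + 1) (Pool.Agent.H777R4.DM.starL k) := by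
  unfold Pool.Agent.H777R4.DM.starL
  refine Hg.add (Hg.add ?_ ?_) (Hg.sum _ _ ?_)
  · have := Hg_inl (FreeMonoid.of k)
    rwa [← wd_one, ωY_of] at this
  · have := Hg_inr (FreeMonoid.of k)
    rwa [← wd_one, ωY_of] at this
  · intro i hi
    rw [Finset.mem_range] at hi
    have h1 := Hg_inl (FreeMonoid.of i)
    rw [← wd_one, ωY_of] at h1
    have h2 := Hg_inr (FreeMonoid.of (k - 1 - i))
    rw [← wd_one, ωY_of] at h2
    have h3 := h1.mul ωP_mul h2
    have e : i + 1 + (k - 1 - i + 1) = k + 1 := by omega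
    rwa [e] at h3

lemma Hg_star (m : FreeMonoid ℕ) : Hg ωP (ωY m) (starΔ (MonoidAlgebra.single m 1)) := by
  induction m using FreeMonoid.inductionOn' with
  | one =>
    have : starΔ (MonoidAlgebra.single 1 1) = 1 := map_one starΔ
    rw [this, ωY_one]
    exact Hg.single ωP (1 : FreeMonoid ℕ × FreeMonoid ℕ) (1 : ℚ)
  | of_mul k v ih =>
    have h1 : (MonoidAlgebra.single (FreeMonoid.of k * v) 1 : AY) =
        MonoidAlgebra.single (FreeMonoid.of k) 1 * MonoidAlgebra.single v 1 := by
      rw [single_mul_single, mul_one]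
    rw [h1, map_mul, ωY_mul, ωY_of]
    refine Hg.mul ωP_mul ?_ ih
    have h2 : starΔ (MonoidAlgebra.single (FreeMonoid.of k) 1) = Pool.Agent.H777R4.DM.starL k := by
      simp [starΔ]
    rw [h2]
    exact Hg_starL k

lemma length_wordX (v : List ℕ) : (wordX v).length = vw 1 v := by
  induction v with
  | nil => simp [wordX, vw]
  | cons k v ih =>
    simp only [wordX, List.length_append, List.length_replicate, List.length_cons, ih]
    simp [vw]
    ring

theorem taskComp : TaskComp := by
  intro ψ w h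
  refine ⟨LieX_le h.mem w, ?_, ?_, ?_, ?_⟩
  · rw [co_comp, h.c0]; simp
  · rw [co_comp, h.c1]; simp
  · rw [co_comp, h.c01]; simp
  · obtain ⟨P, hP, hs⟩ := h.star
    refine ⟨pr ωY w P, ?_, ?_⟩
    · intro v
      have h1 : co (pr ωY w P) v = if vw 1 v = w then co P v else 0 := by
        unfold co
        rw [coeff_pr]
        rfl
      rw [h1, hP v, co_comp, length_wordX]
      have h2 : corr (comp w ψ) v = if vw 1 v = w then corr ψ v else 0 := by
        unfold corr
        by_cases hv : 2 ≤ v.length ∧ v = List.replicate v.length 0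
        · rw [if_pos hv, if_pos hv, co_comp]
          have e : (List.replicate (v.length - 1) (0 : Fin 2) ++ [1]).length = vw 1 v := by
            rw [hv.2]
            simp [vw]
            omega
          rw [e]
          split_ifs <;> simp
        · rw [if_neg hv, if_neg hv]; simp
      rw [h2]
      split_ifs <;> simp
    · have e1 := pr_comm (ω := ωY) (ω' := ωP) starΔ.toLinearMap Hg_star w P
      have e2 := pr_comm (ω := ωY) (ω' := ωP) inl.toLinearMap Hg_inl w P
      have e3 := pr_comm (ω := ωY) (ω' := ωP) inr.toLinearMap Hg_inr w P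
      simp only [AlgHom.toLinearMap_apply] at e1 e2 e3
      rw [e1, e2, e3, hs, map_add]

end Pool.Agent.H217R3.DMC
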